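import Pool.Agent.Lib.MP_6d0683_nr.North

/-!
The Morse-Smale property when all orbits but one enter the southern hemisphere.
-/

set_option autoImplicit false

open Set Metric Filter Topology Function

namespace Pool.Agent.Lib.MP_6d0683_nr

open MP_6d0683_an MP_3fe454_an.PD MP_3fe454_an.S2

variable {k : ℕ} {f : Sph ≃ₜ Sph} {p : Sph}

theorem nr_down (hS : ∀ x : Sph, x.1.2 ≤ 0 → (f x).1.2 < 0) {x : Sph} {n m : ℕ} (hn : n ≤ m)
    (h : 0 ≤ (f^[m] x).1.2) : 0 ≤ (f^[n] x).1.2 := by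
  induction m, hn using Nat.le_induction with
  | base => exact h
  | succ m _ ih =>
    refine ih (not_lt.1 fun h1 => ?_)
    rw [iterate_succ_apply'] at h
    exact (hS _ h1.le).not_ge h

theorem nr_closed (n : ℕ) : IsClosed {x : Sph | 0 ≤ (f^[n] x).1.2} :=
  isClosed_le continuous_const (sph4_cont.comp (f.continuous.iterate n))

theorem nr_nest (hS : ∀ x : Sph, x.1.2 ≤ 0 → (f x).1.2 < 0)
    (hN : ∀ x, x ≠ p → ∃ n : ℕ, (f^[n] x).1.2 < 0) {U : Set Sph}
    (hU : (∀ n : ℕ, 0 ≤ (f^[n] p).1.2) → U ∈ 𝓝 p) :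
    ∃ n : ℕ, ∀ x : Sph, 0 ≤ (f^[n] x).1.2 → x ∈ U := by
  have := sph_compact
  refine exists_subset_nhds_of_compactSpace (V := fun n : ℕ => {x : Sph | 0 ≤ (f^[n] x).1.2})
    (fun i j => ⟨max i j, fun x hx => nr_down hS (le_max_left _ _) hx,
      fun x hx => nr_down hS (le_max_right _ _) hx⟩) nr_closed fun x hx => ?_
  have h1 : ∀ n : ℕ, 0 ≤ (f^[n] x).1.2 := mem_iInter.1 hx
  obtain rfl : x = p := by
    by_contra h
    obtain ⟨n, hn⟩ := hN x h
    exact hn.not_ge (h1 n)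
  exact hU h1

theorem nr_rinv (n : ℕ) (x : Sph) : f^[n] (f.symm^[n] x) = x :=
  (LeftInverse.iterate (g := f) (f := f.symm) f.apply_symm_apply n) x

theorem nr_mem (hS : ∀ x : Sph, x.1.2 ≤ 0 → (f x).1.2 < 0)
    (hN : ∀ x, x ≠ p → ∃ n : ℕ, (f^[n] x).1.2 < 0) (n : ℕ) : 0 ≤ (f^[n] p).1.2 := by
  by_contra h
  obtain ⟨m, hm⟩ := nr_nest hS hN (U := ∅) fun h1 => (h (h1 n)).elim
  refine hm (f.symm^[m] (par false 0)) ?_
  rw [nr_rinv]
  have := (par_nonpos false 0).2 (by simp)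
  rw [sph4_f] at this
  linarith

theorem nr_eq (hN : ∀ x, x ≠ p → ∃ n : ℕ, (f^[n] x).1.2 < 0) {x : Sph}
    (h : ∀ n : ℕ, 0 ≤ (f^[n] x).1.2) : x = p := by
  by_contra h1
  obtain ⟨n, hn⟩ := hN x h1
  exact hn.not_ge (h n)

theorem nr_fix (hS : ∀ x : Sph, x.1.2 ≤ 0 → (f x).1.2 < 0)
    (hN : ∀ x, x ≠ p → ∃ n : ℕ, (f^[n] x).1.2 < 0) : f p = p ∧ 0 < p.1.2 :=
  ⟨nr_eq hN fun n => nr_mem hS hN (n + 1),
    not_le.1 fun h => (hS p h).not_ge (nr_mem hS hN 1)⟩

theorem nr_per (hS : ∀ x : Sph, x.1.2 ≤ 0 → (f x).1.2 < 0)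
    (hN : ∀ x, x ≠ p → ∃ n : ℕ, (f^[n] x).1.2 < 0) {x : Sph} (hx : 0 ≤ x.1.2)
    (h : x ∈ periodicPts f) : x = p := by
  obtain ⟨m, hm, h⟩ := h
  refine nr_eq hN fun n => nr_down hS (Nat.le_mul_of_pos_left n hm) ?_
  rw [show f^[m * n] x = x from IsPeriodicPt.mul_const h n]
  exact hx

theorem nr_stab (hS : ∀ x : Sph, x.1.2 ≤ 0 → (f x).1.2 < 0)
    (hN : ∀ x, x ≠ p → ∃ n : ℕ, (f^[n] x).1.2 < 0) : Stab f.symm p := by
  intro U hU
  obtain ⟨n, hn⟩ := nr_nest hS hN fun _ => hU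
  refine ⟨{x | 0 < (f^[n] x).1.2}, (isOpen_lt continuous_const
    (sph4_cont.comp (f.continuous.iterate n))).mem_nhds ?_, fun y hy j => hn _ ?_⟩
  · show 0 < (f^[n] p).1.2
    rw [iterate_fixed (nr_fix hS hN).1]
    exact (nr_fix hS hN).2
  · refine nr_down hS (Nat.le_add_right n j) ?_
    rw [iterate_add_apply, nr_rinv]
    exact le_of_lt hy

theorem nr_out {x : Sph} (hx : x ∉ par true '' Disc) : 0 ≤ x.1.2 := by
  rw [mem_image_par, sph4_t] at hx
  exact (not_le.1 hx).le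

theorem nr_sys (hk : 2 ≤ k) (hf : IsDiffeo k f) (hs : Stable k f)
    (hS : ∀ x : Sph, x.1.2 ≤ 0 → (f x).1.2 < 0)
    (hd : ∀ z ∈ closedBall (0 : ℂ) 1, |(fderiv ℝ (loc true true f) z).det| < 1)
    (hN : ∀ x, x ≠ p → ∃ n : ℕ, (f^[n] x).1.2 < 0) :
    ∃ X : Sys Sph, X.f = f ∧ ∀ z ∈ Disc, X.F.f z = loc true true f z := by
  obtain ⟨F, hF⟩ := south_dis hk hf hS hd
  refine ⟨⟨par true, f, F, par_emb true, fun z hz => ?_, fun x hx hp => ?_, ?_,
    fun P _ _ ψ r h => stable_fam hf hs h⟩, rfl, hF⟩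
  · rw [hF z hz]
    exact (south_maps hS hz).2
  · rw [nr_per hS hN (nr_out hx) hp]
    exact ⟨(nr_fix hS hN).1, nr_stab hS hN⟩
  · exact (finite_singleton p).subset fun x hx =>
      nr_per hS hN (nr_out hx.1) (mk_mem_periodicPts one_pos hx.2)

theorem nr_cr (hS : ∀ x : Sph, x.1.2 ≤ 0 → (f x).1.2 < 0)
    (hN : ∀ x, x ≠ p → ∃ n : ℕ, (f^[n] x).1.2 < 0) {x : Sph} (hx : 0 < x.1.2)
    (h : ∀ ε > 0, Relation.TransGen (fun u v => dist (f u) v < ε) x x) : x = p := by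
  have := sph_compact
  have main : ∀ n : ℕ, 0 < (f^[n] x).1.2 := fun n => by
    induction n with
    | zero => exact hx
    | succ n ih =>
      by_contra h1
      have c1 : ∀ m : ℕ, Continuous fun y : Sph => (f^[m] y).1.2 := fun m =>
        sph4_cont.comp (f.continuous.iterate m)
      obtain ⟨κ, κ0, hκ⟩ := (isClosed_le (c1 n) continuous_const :
          IsClosed {y : Sph | (f^[n] y).1.2 ≤ 0}).isCompact.exists_thickening_subset_open
        ((isOpen_lt (c1 (n + 1)) continuous_const).inter (isOpen_compl_singleton (x := x)))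
        (fun y hy => ⟨by
          show (f^[n + 1] y).1.2 < 0
          rw [iterate_succ_apply']
          exact hS _ hy, fun e => by
          rw [mem_singleton_iff.1 e] at hy
          exact ih.not_ge hy⟩)
      have step : ∀ u v : Sph, (f^[n + 1] u).1.2 ≤ 0 → dist (f u) v < κ →
          (f^[n + 1] v).1.2 ≤ 0 ∧ v ≠ x := fun u v hu hd => by
        have h2 := hκ (mem_thickening_iff.2 ⟨f u, hu, by rwa [dist_comm]⟩)
        exact ⟨le_of_lt h2.1, h2.2⟩
      have key : ∀ y, Relation.TransGen (fun u v => dist (f u) v < κ) x y →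
          (f^[n + 1] y).1.2 ≤ 0 ∧ y ≠ x := fun y hy => by
        induction hy with
        | single hy => exact step _ _ (not_lt.1 h1) hy
        | tail _ hy ih' => exact step _ _ ih'.1 hy
      exact (key x (h κ κ0)).2 rfl
  exact nr_eq hN fun n => (main n).le

theorem nr_keep (hS : ∀ x : Sph, x.1.2 ≤ 0 → (f x).1.2 < 0)
    (hN : ∀ x, x ≠ p → ∃ n : ℕ, (f^[n] x).1.2 < 0) (hfin : {x | f x = x}.Finite)
    {g : Sph ≃ₜ Sph} (h : Conj f g) (hp : g p = p) (hg : ∀ x : Sph, x.1.2 ≤ 0 → g x = f x) :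
    Stab g.symm p := by
  have cases : ∀ x, f x = x → x = p ∨ x.1.2 < 0 := fun x hx =>
    (le_or_gt 0 x.1.2).imp_left fun h1 => nr_per hS hN h1 (mk_mem_periodicPts one_pos hx)
  have h1 : ∀ x, g x = x → f x = x := h.fix_eq (n := 1) hfin fun x hx => by
    rcases cases x hx with rfl | h2
    · exact hp
    · exact (hg x h2.le).trans hx
  have h2 : Conj g.symm f.symm := by
    obtain ⟨χ, hχ⟩ := h.symm
    refine ⟨χ, fun x => ?_⟩
    rw [eq_comm, f.symm_apply_eq, ← hχ, g.apply_symm_apply]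
  have e : ∀ (u : Sph ≃ₜ Sph) (x : Sph), u.symm x = x ↔ u x = x := fun u x => by
    rw [u.symm_apply_eq, eq_comm]
  have h3 : Conj f.symm g.symm := h2.symm
  refine h2.stab_eq (n := 1) (m := 1)
    (hfin.subset fun x hx => h1 x ((e g x).1 hx)) (fun x hx hs => ?_) p
    ((e f p).2 (nr_fix hS hN).1) (nr_stab hS hN)
  have h4 := h1 x ((e g x).1 hx)
  refine ⟨(e f x).2 h4, ?_⟩
  rcases cases x h4 with rfl | h5
  · exact nr_stab hS hN
  · refine Stab.germ (germ_symm (n := 1) h4 ?_) hs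
    filter_upwards [sph4_cont.continuousAt.eventually (gt_mem_nhds h5)] with y hy
    exact hg y hy.le

theorem nr_snk (hk : 1 ≤ k) (hf : IsDiffeo k f) (hs : Stable k f)
    (hS : ∀ x : Sph, x.1.2 ≤ 0 → (f x).1.2 < 0)
    (hN : ∀ x, x ≠ p → ∃ n : ℕ, (f^[n] x).1.2 < 0) (hfin : {x | f x = x}.Finite) :
    Nonempty (Snk (loc false false f.symm) (chart false p)) := by
  obtain ⟨fp, p0⟩ := nr_fix hS hN
  have fp' : f.symm p = p := f.symm_apply_eq.2 fp.symm
  have p1 : sgn false * p.1.2 < 0 := by rw [sph4_f]; linarith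
  have p2 := par_chart (p1.trans one_pos)
  obtain ⟨c, hc⟩ : ∃ c, c = chart false p := ⟨_, rfl⟩
  have c1 : ‖c‖ < 1 := hc ▸ sph4_lt p1
  obtain ⟨H, hH⟩ : ∃ H, H = loc false false f.symm := ⟨_, rfl⟩
  have Hc : H c = c := by rw [hH, hc, sph4_loc _ p1.le, fp']
  have hk0 : (k : WithTop ℕ∞) ≠ 0 := by exact_mod_cast (by omega : k ≠ 0)
  have sm : ContDiffAt ℝ k H c := by
    rw [hH, hc]
    exact hf.2.loc (by rw [p2, fp']; exact p1.trans one_pos)
  have hR : ∀ v, fderiv ℝ (loc false false f) c (fderiv ℝ H c v) = v := fun v => by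
    have := loc_inv hk hf.2 hf.1 f.apply_symm_apply (s := false) (s' := false) (x := p)
      (p1.trans one_pos) (by rw [fp']; exact p1.trans one_pos) v
    rwa [fp', ← hc, ← hH] at this
  rw [← hc] at p2
  rw [← hc, ← hH]
  have r0 : 0 < (1 - ‖c‖) / 2 := by linarith
  obtain ⟨ψ, R, hψ, hψ'⟩ := exists_scale c r0 (by linarith)
  obtain ⟨t, ⟨⟨g, g1, g2, g3⟩, t1⟩, t0⟩ := ((((stable_famN hf hs hψ).and
    (lt_mem_nhds (show (-1 : ℝ) < 0 by norm_num))).filter_mono
      (nhdsWithin_le_nhds (s := Iio 0))).and self_mem_nhdsWithin).exists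
  have t2 : t < 0 := t0
  have t3 : 0 < 1 + t := by linarith
  have gp : g p = p := by
    rw [← p2, g2, hψ' t c (mem_closedBall_self (half_pos r0).le), sub_self, smul_zero, add_zero,
      p2, fp]
  have gS : ∀ x : Sph, x.1.2 ≤ 0 → (g x).1.2 < 0 := fun x hx => by rw [g3 x hx]; exact hS x hx
  have s1 := nr_keep hS hN hfin g1 gp g3
  rw [← p2] at s1
  have s2 := (stab_chart (par_emb false) (fun z hz => (north_maps gS hz).2)
    (fun z hz => mem_closedBall_zero_iff.2 (north_maps gS hz).1.le) c1).1 s1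
  refine snk_of_scale (sm.hasStrictFDerivAt hk0) Hc hR (σ := (1 + t)⁻¹)
    ((one_lt_inv₀ t3).2 (by linarith)) (s2.germ ?_)
  have ct : ContinuousAt (fun z => c + (1 + t)⁻¹ • (H z - c)) c := by
    have := sm.continuousAt
    fun_prop
  filter_upwards [ct.eventually_mem (s := closedBall c ((1 - ‖c‖) / 2 / 2))
    (by simpa [Hc] using closedBall_mem_nhds c (half_pos r0)),
    closedBall_mem_nhds_of_mem (mem_ball_zero_iff.2 c1)] with w hw hw'
  have e1 : g (par false (c + (1 + t)⁻¹ • (H w - c))) = par false w := by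
    rw [g2, hψ' t _ hw, add_sub_cancel_left, add_assoc, smul_smul, ← add_smul,
      show (1 + t)⁻¹ + t * (1 + t)⁻¹ = 1 by field_simp, one_smul, add_sub_cancel, hH,
      ← (north_maps hS hw').2, f.apply_symm_apply]
  rw [loc, ← e1, g.symm_apply_apply, chart_par]

theorem nr_der (hk : 1 ≤ k) (hf : IsDiffeo k f) (hS : ∀ x : Sph, x.1.2 ≤ 0 → (f x).1.2 < 0)
    (hN : ∀ x, x ≠ p → ∃ n : ℕ, (f^[n] x).1.2 < 0)
    (T : Snk (loc false false f.symm) (chart false p))
    {x : ℤ → Sph} (hx : ∀ n, x (n + 1) = f (x n)) {n1 : ℤ} (h1 : 0 < (x n1).1.2) (v : ℂ) :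
    ∃ b : ℤ → ℂ, (∀ n, b (n + 1) = der f (x n) (b n)) ∧ b 0 = v ∧ Tendsto b atBot (𝓝 0) := by
  have hk0 : (k : WithTop ℕ∞) ≠ 0 := by exact_mod_cast (by omega : k ≠ 0)
  have dom : ∀ y : Sph, sgn (hemi y) * y.1.2 < 1 := fun y => (dom_cases y).trans_lt one_pos
  have hsur : ∀ n, Surjective (der f (x n)) := fun n w => by
    have h := loc_inv hk hf.2 hf.1 f.apply_symm_apply (dom (f (x n))) (dom (f.symm (f (x n)))) w
    rw [f.symm_apply_apply] at h
    exact ⟨_, h⟩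
  obtain ⟨b, hb, hb0⟩ := sph4_sol (L := fun n => der f (x n)) hsur v
  refine ⟨b, hb, hb0, ?_⟩
  have e : ∀ m : ℕ, n1 - (m + 1 : ℕ) + 1 = n1 - m := fun m => by push_cast; ring
  have e1 : ∀ m : ℕ, f (x (n1 - (m + 1 : ℕ))) = x (n1 - m) := fun m => by rw [← hx, e]
  have it : ∀ m : ℕ, f^[m] (x (n1 - m)) = x n1 := fun m => by
    induction m with
    | zero => simp
    | succ m ih => rw [iterate_succ_apply, e1, ih]
  have north : ∀ m : ℕ, 0 < (x (n1 - m)).1.2 := fun m => by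
    induction m with
    | zero => simpa using h1
    | succ m ih =>
      by_contra hh
      have h2 := hS _ (not_lt.1 hh)
      rw [e1] at h2
      exact h2.not_gt ih
  have hem : ∀ m : ℕ, hemi (x (n1 - m)) = false := fun m => by
    simpa [hemi] using north m
  have lt1 : ∀ m : ℕ, sgn false * (x (n1 - m)).1.2 < 1 := fun m => by
    rw [sph4_f]; linarith [north m]
  have t0 : Tendsto (fun m : ℕ => x (n1 - m)) atTop (𝓝 p) := fun U hU => by
    obtain ⟨n, hn⟩ := nr_nest hS hN fun _ => hU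
    refine mem_map.2 (mem_of_superset (mem_atTop n) fun m hm => hn _ (nr_down hS hm ?_))
    rw [it]
    exact h1.le
  have t3 := T.decay (o := fun m : ℕ => chart false (x (n1 - m))) (a := fun m : ℕ => b (n1 - m))
    (L := fun m : ℕ => fderiv ℝ (loc false false f.symm) (chart false (x (n1 - m))))
    ((chart_cont (by rw [sph4_f]; linarith [(nr_fix hS hN).2])).tendsto.comp t0)
    (fun m => ((hf.2.loc (by
      rw [par_chart (lt1 m), ← e1, f.symm_apply_apply]
      exact lt1 (m + 1))).differentiableAt hk0).hasFDerivAt) fun m => by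
      have h := loc_inv hk hf.1 hf.2 f.symm_apply_apply (dom (x (n1 - (m + 1 : ℕ))))
        (dom (f (x (n1 - (m + 1 : ℕ))))) (b (n1 - (m + 1 : ℕ)))
      have e2 := hb (n1 - (m + 1 : ℕ))
      rw [der, e] at e2
      rw [← e2, e1, hem, hem] at h
      exact h.symm
  have t1 : Tendsto (fun n : ℤ => (n1 - n).toNat) atBot atTop :=
    tendsto_atTop.2 fun m => (eventually_le_atBot (n1 - m)).mono fun n hn => by omega
  refine (t3.comp t1).congr' ?_
  filter_upwards [eventually_le_atBot n1] with n hn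
  show b (n1 - ((n1 - n).toNat : ℤ)) = b n
  rw [show n1 - ((n1 - n).toNat : ℤ) = n by omega]

theorem nr_morse_smale (hk : 2 ≤ k) (hf : IsDiffeo k f) (hs : Stable k f)
    (hS : ∀ x : Sph, x.1.2 ≤ 0 → (f x).1.2 < 0)
    (hd : ∀ z ∈ closedBall (0 : ℂ) 1, |(fderiv ℝ (loc true true f) z).det| < 1)
    (hN : ∀ x, x ≠ p → ∃ n : ℕ, (f^[n] x).1.2 < 0)
    (hc : ¬ ∃ m : ℕ, 1 ≤ m ∧ ∀ j : ℕ, ∃ x, minimalPeriod f x = m * 2 ^ j) : MorseSmale f := by
  obtain ⟨X, rfl, hT⟩ := nr_sys hk hf hs hS hd hN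
  obtain ⟨h1, h2⟩ := main_sys X hc
  have hcr : {x | ∀ ε > 0, Relation.TransGen (fun u v => dist (X.f u) v < ε) x x}.Finite := by
    refine ((h1.image (par true)).union (finite_singleton p)).subset fun x hx => ?_
    rcases le_or_gt x.1.2 0 with h | h
    · exact .inl ⟨chart true x, cr_south hS hT h hx,
        par_chart (by rw [sph4_t]; exact h.trans_lt one_pos)⟩
    · exact .inr (nr_cr hS hN h hx)
  obtain ⟨T⟩ := nr_snk (by omega) hf hs hS hN (hcr.subset fun x hx ε hε =>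
    .single (by rw [show X.f x = x from hx, dist_self]; exact hε))
  refine ⟨hcr, fun x hx v => ?_⟩
  by_cases h : ∀ n, (x n).1.2 ≤ 0
  · have hs : ∀ n, sgn true * (x n).1.2 ≤ 0 := fun n => by rw [sph4_t]; exact h n
    have hlt : ∀ n, ‖chart true (x n)‖ < 1 := fun n => by
      refine sph4_lt ?_
      rw [sph4_t, ← sub_add_cancel n 1, hx]
      exact hS _ (h _)
    have hem : ∀ n, hemi (x n) = true := fun n => by simpa [hemi] using h n
    have hd : ∀ n, der X.f (x n) = fderiv ℝ X.F.f (chart true (x n)) := fun n => by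
      rw [der, ← hx, hem, hem]
      refine EventuallyEq.fderiv_eq ?_
      filter_upwards [closedBall_mem_nhds_of_mem (mem_ball_zero_iff.2 (hlt n))] with w hw
      exact (hT w hw).symm
    obtain ⟨a, b, ha, hb, e, t1, t2⟩ := h2 (fun n => chart true (x n)) (fun n => sph4_mem (hs n))
      (fun n => by rw [hT _ (sph4_mem (hs n)), sph4_loc _ (hs n), hx]) v
    exact ⟨a, b, fun n => by rw [hd]; exact ha n, fun n => by rw [hd]; exact hb n, e, t1, t2⟩
  · obtain ⟨n1, h3⟩ := not_forall.1 h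
    obtain ⟨b, hb, e, t⟩ := nr_der (by omega) hf hS hN T hx (not_le.1 h3) v
    exact ⟨0, b, fun n => by simp, hb, by simpa using e, tendsto_const_nhds, t⟩

end Pool.Agent.Lib.MP_6d0683_nr
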