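import Pool.Agent.Lib.MP_6d0683_an.Fin

/-!
A topological source in the northern hemisphere of a stable diffeomorphism is hyperbolic.
-/

set_option autoImplicit false

open Set Metric Filter Topology Function

namespace Pool.Agent.Lib.MP_6d0683_nr

open MP_6d0683_an MP_3fe454_an.PD MP_3fe454_an.S2

section fam

variable {P : Type} [NormedAddCommGroup P] [NormedSpace ℝ P] {ψ : P × ℂ → ℂ} {r : ℝ}

/-- the extension of a map of the plane, read in the northern chart, by the identity -/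
noncomputable def extN (e : ℂ → ℂ) (x : Sph) : Sph :=
  if sgn false * x.1.2 ≤ 0 then par false (e (chart false x)) else x

theorem extN_par {e : ℂ → ℂ} (hr : r < 1) (he : ∀ z, r ≤ ‖z‖ → e z = z) (z : ℂ) :
    extN e (par false z) = par false (e z) := by
  rw [extN, chart_par]
  split_ifs with h
  · rfl
  · rw [he z (hr.le.trans (not_le.1 fun k => h ((par_nonpos false z).2 k)).le)]

theorem extN_south {e : ℂ → ℂ} (hr : r < 1) (he : ∀ z, r ≤ ‖z‖ → e z = z) {x : Sph}
    (hx : x.1.2 ≤ 0) : extN e x = x := by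
  rw [extN]
  split_ifs with h
  · have h1 := par_chart (lt_of_le_of_lt h one_pos)
    rw [he _ (hr.le.trans (not_lt.1 fun k => ?_)), h1]
    have h2 := (par_neg false _).2 k
    rw [h1, sph4_f] at h2
    linarith
  · rfl

theorem extN_smooth {n : ℕ} (h : ContDiff ℝ n ψ) (hr : r < 1)
    (he : ∀ t z, r ≤ ‖z‖ → ψ (t, z) = z) (s : Bool) :
    ContDiff ℝ n fun p : P × ℂ => (extN (fun z => ψ (p.1, z)) (par s p.2)).1 := by
  refine contDiff_iff_contDiffAt.2 fun p => ?_
  have h1 : ContDiff ℝ n fun p : P × ℂ => (par s p.2).1 := (par_smooth s n).comp contDiff_snd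
  rcases lt_or_ge (sgn false * (par s p.2).1.2) 1 with h2 | h2
  · obtain ⟨h3, h4⟩ := sph2_chart h1 h2
    refine ((par_smooth false n).contDiffAt.comp p
      (h.contDiffAt.comp p (contDiffAt_fst.prodMk h3))).congr_of_eventuallyEq (h4.mono fun q hq => ?_)
    simp only [Function.comp_apply]
    rw [← extN_par hr (he q.1), hq]
  · refine h1.contDiffAt.congr_of_eventuallyEq
      ((((continuous_const.mul h1.continuous.snd).continuousAt (x := p)).eventually
      (lt_mem_nhds (one_pos.trans_le h2))).mono fun q hq => ?_)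
    have hq' : 0 < sgn false * (par s q.2).1.2 := hq
    simp only [extN, if_neg (not_le.2 hq')]

theorem ck_familyN {k : ℕ} {f : Sph → Sph} (hf : IsCk k f) (h : Fam ψ r) (s : Bool) :
    ContDiff ℝ k fun p : P × ℂ => (f (extN (fun z => ψ (p.1, z)) (par s p.2))).1 := by
  have h1 := extN_smooth (h.smooth k) h.r_lt h.supp s
  refine contDiff_iff_contDiffAt.2 fun p => ?_
  obtain ⟨h3, h4⟩ := sph2_chart h1 (p := p) ((dom_cases _).trans_lt one_pos)
  refine ((hf (hemi (extN (fun z => ψ (p.1, z)) (par s p.2)))).contDiffAt.comp p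
    h3).congr_of_eventuallyEq (h4.mono fun q hq => ?_)
  simp only [Function.comp_apply, hq]

theorem extN_ck {k : ℕ} {e : ℂ → ℂ} (h : ContDiff ℝ k e) (hr : r < 1)
    (he : ∀ z, r ≤ ‖z‖ → e z = z) : IsCk k (extN e) := fun s => by
  have h1 := extN_smooth (ψ := fun p : ℝ × ℂ => e p.2) (h.comp contDiff_snd) hr (fun _ => he) s
  have h2 : ContDiff ℝ k fun z : ℂ => ((0 : ℝ), z) := contDiff_const.prodMk contDiff_id
  have h3 := h1.comp h2
  simp only [Function.comp_def] at h3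
  exact h3

theorem extN_inv {e e' : ℂ → ℂ} (hr : r < 1) (he : ∀ z, r ≤ ‖z‖ → e z = z)
    (he' : ∀ z, r ≤ ‖z‖ → e' z = z) (h : LeftInverse e' e) : LeftInverse (extN e') (extN e) :=
  fun x => by
    by_cases hx : sgn false * x.1.2 ≤ 0
    · conv_lhs => rw [← par_chart (hx.trans_lt one_pos), extN_par hr he, extN_par hr he', h]
      exact par_chart (hx.trans_lt one_pos)
    · simp only [extN, if_neg hx]

theorem stable_famN {k : ℕ} {f : Sph ≃ₜ Sph} (hf : IsDiffeo k f) (hs : Stable k f) (h : Fam ψ r) :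
    ∀ᶠ t in 𝓝 (0 : P), ∃ g : Sph ≃ₜ Sph, Conj f g ∧
      (∀ z, g (par false z) = f (par false (ψ (t, z)))) ∧ ∀ x : Sph, x.1.2 ≤ 0 → g x = f x := by
  obtain ⟨ε, hε, hs⟩ := hs
  filter_upwards [h.homeo, jets_close (ck_familyN hf.1 h true) hε,
    jets_close (ck_familyN hf.1 h false) hε] with t ⟨e, he, hk⟩ j1 j2
  have e0 : ∀ x, extN (fun z => z) x = x := fun x => by
    rw [extN]
    split_ifs with hx
    · exact par_chart (hx.trans_lt one_pos)
    · rfl
  have e1 : (fun z => ψ (t, z)) = e := funext fun z => (he z).symm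
  have e2 : ∀ z, r ≤ ‖z‖ → e z = z := fun z hz => (he z).trans (h.supp t z hz)
  have e3 : ∀ z, r ≤ ‖z‖ → e.symm z = z := fun z hz => e.symm_apply_eq.2 (e2 z hz).symm
  simp only [h.zero, e0, e1] at j1 j2
  have c1 : IsCk k (extN e) :=
    extN_ck (e1 ▸ (h.smooth k).comp (contDiff_const.prodMk contDiff_id)) h.r_lt e2
  have c2 : IsCk k (extN e.symm) := extN_ck (hk k) h.r_lt e3
  let Ψ : Sph ≃ₜ Sph := ⟨⟨extN e, extN e.symm, extN_inv h.r_lt e2 e3 e.symm_apply_apply,
    extN_inv h.r_lt e3 e2 e.apply_symm_apply⟩, c1.cont, c2.cont⟩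
  refine ⟨Ψ.trans f, hs _ ⟨hf.1.comp c1, c2.comp hf.2⟩ fun s => ?_,
    fun z => congrArg f ?_, fun x hx => congrArg f (extN_south h.r_lt e2 hx)⟩
  · cases s
    exacts [j2, j1]
  · rw [← he]
    exact extN_par h.r_lt e2 z

end fam

theorem exists_scale (c : ℂ) {r : ℝ} (h0 : 0 < r) (h1 : ‖c‖ + r < 1) :
    ∃ (ψ : ℝ × ℂ → ℂ) (R : ℝ), Fam ψ R ∧
      ∀ t z, z ∈ closedBall c (r / 2) → ψ (t, z) = z + t • (z - c) := by
  obtain ⟨b, hb, hb0, hb1⟩ := fam_bump c h0
  refine ⟨fun p => p.2 + (b p.2 * p.1) • (p.2 - c), ‖c‖ + r,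
    ⟨fun n => ?_, fun z => by simp, h1, fun t z hz => by simp [hb0 z (fam_out le_rfl hz)]⟩,
    fun t z hz => by simp only [hb1 z hz, one_mul]⟩
  have := hb n
  fun_prop

/-- an expanded cone which dominates is an obstruction to Lyapunov stability -/
theorem cone_not_stab {G : ℂ → ℂ} {c : ℂ} {L : ℂ →L[ℝ] ℂ} (hL : HasFDerivAt G L c) (hc : G c = c)
    (p q : Seminorm ℝ ℂ) {a b μ ν : ℝ} (ha : 0 < a) (hb : 0 < b)
    (hl : ∀ v, q v ≤ p v → a * ‖v‖ ≤ p v) (hp : ∀ v, p v ≤ b * ‖v‖) (hq : ∀ v, q v ≤ b * ‖v‖)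
    (h1 : 1 < μ) (h0 : 0 ≤ ν) (h2 : ν < μ) (hP : ∀ v, μ * p v ≤ p (L v))
    (hQ : ∀ v, q (L v) ≤ ν * q v) {v : ℂ} (hv : q v ≤ p v) (hv0 : 0 < p v) : ¬ Stab G c := by
  intro hs
  obtain ⟨e, e0, e1, e2⟩ : ∃ e : ℝ, 0 < e ∧ 1 < μ - e ∧ ν + e ≤ μ - e :=
    ⟨min (μ - 1) (μ - ν) / 2, by have := lt_min (sub_pos.2 h1) (sub_pos.2 h2); positivity,
      by linarith [min_le_left (μ - 1) (μ - ν)], by linarith [min_le_right (μ - 1) (μ - ν)]⟩
  have h3 := hL.isLittleO.def (c := e * a / b) (by positivity)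
  obtain ⟨V, hV, hVU⟩ := hs _ (inter_mem h3 (ball_mem_nhds c one_pos))
  have h4 : ∀ᶠ t : ℝ in 𝓝 0, c + t • v ∈ V :=
    (show Continuous fun t : ℝ => c + t • v by fun_prop).continuousAt.eventually_mem
      (by simpa using hV)
  obtain ⟨t, ht, t0⟩ := ((h4.filter_mono (nhdsWithin_le_nhds (s := Ioi 0))).and
    self_mem_nhdsWithin).exists
  have t1 : 0 < t := t0
  have key : ∀ n : ℕ, q (G^[n] (c + t • v) - c) ≤ p (G^[n] (c + t • v) - c) ∧
      (μ - e) ^ n * (t * p v) ≤ p (G^[n] (c + t • v) - c) := fun n => by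
    induction n with
    | zero =>
      simp only [iterate_zero, id, add_sub_cancel_left, map_smul_eq_mul, Real.norm_of_nonneg t1.le,
        pow_zero, one_mul]
      exact ⟨mul_le_mul_of_nonneg_left hv t1.le, le_rfl⟩
    | succ n ih =>
      rw [iterate_succ_apply']
      obtain ⟨w, hw⟩ : ∃ w, w = G^[n] (c + t • v) := ⟨_, rfl⟩
      have a0 : ‖G w - G c - L (w - c)‖ ≤ e * a / b * ‖w - c‖ := hw ▸ (hVU _ ht n).1
      rw [← hw] at ih ⊢
      rw [hc] at a0
      have a1 : b * ‖G w - c - L (w - c)‖ ≤ e * p (w - c) := by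
        have a2 := mul_le_mul_of_nonneg_left a0 hb.le
        have a3 : b * (e * a / b * ‖w - c‖) = e * (a * ‖w - c‖) := by field_simp
        exact a2.trans (a3.trans_le (mul_le_mul_of_nonneg_left (hl _ ih.1) e0.le))
      have a4 := map_add_le_add q (G w - c - L (w - c)) (L (w - c))
      rw [sub_add_cancel] at a4
      have a5 := map_sub_le_add p (G w - c) (G w - c - L (w - c))
      rw [sub_sub_cancel] at a5
      have a6 : (μ - e) * p (w - c) ≤ p (G w - c) := by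
        linarith [hP (w - c), hp (G w - c - L (w - c))]
      have a7 := mul_le_mul_of_nonneg_left ih.1 h0
      have a8 := mul_le_mul_of_nonneg_right e2 (apply_nonneg p (w - c))
      refine ⟨by linarith [hQ (w - c), hq (G w - c - L (w - c))], ?_⟩
      rw [pow_succ', mul_assoc]
      exact (mul_le_mul_of_nonneg_left ih.2 (by linarith)).trans a6
  obtain ⟨n, hn⟩ := (((tendsto_pow_atTop_atTop_of_one_lt e1).atTop_mul_const
    (mul_pos t1 hv0)).eventually_gt_atTop b).exists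
  have a9 : ‖G^[n] (c + t • v) - c‖ < 1 := by simpa [dist_eq_norm] using (hVU _ ht n).2
  have := (key n).2.trans (hp _)
  nlinarith

theorem diag_not_stab {G : ℂ → ℂ} {c : ℂ} {L : ℂ →L[ℝ] ℂ} (hL : HasFDerivAt G L c) (hc : G c = c)
    (A : ℂ ≃L[ℝ] ℝ × ℝ) {μ ν : ℝ} (h1 : 1 < μ) (h0 : 0 ≤ ν) (h2 : ν < μ)
    (hA : ∀ v, A (L v) = (μ * (A v).1, ν * (A v).2)) : ¬ Stab G c := by
  obtain ⟨a, a0, ha⟩ := (A : ℂ →L[ℝ] ℝ × ℝ).bound
  obtain ⟨b, b0, hb⟩ := (A.symm : ℝ × ℝ →L[ℝ] ℂ).bound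
  have hb' : ∀ v, ‖v‖ ≤ b * ‖A v‖ := fun v => by simpa using hb (A v)
  let p : Seminorm ℝ ℂ :=
    (normSeminorm ℝ ℝ).comp ((LinearMap.fst ℝ ℝ ℝ).comp A.toLinearEquiv.toLinearMap)
  let q : Seminorm ℝ ℂ :=
    (normSeminorm ℝ ℝ).comp ((LinearMap.snd ℝ ℝ ℝ).comp A.toLinearEquiv.toLinearMap)
  have ep : ∀ v, p v = ‖(A v).1‖ := fun v => rfl
  have eq : ∀ v, q v = ‖(A v).2‖ := fun v => rfl
  refine cone_not_stab hL hc p q (a := b⁻¹) (inv_pos.2 b0) a0 (fun v hv => ?_)
    (fun v => (norm_fst_le (A v)).trans (ha v)) (fun v => (norm_snd_le (A v)).trans (ha v))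
    h1 h0 h2 (fun v => ?_) (fun v => ?_) (v := A.symm (1, 0)) ?_ ?_
  · rw [ep, eq] at hv
    rw [ep, ← max_eq_left hv]
    exact (inv_mul_le_iff₀ b0).2 (hb' v)
  · rw [ep, ep, hA, norm_mul, Real.norm_of_nonneg (h0.trans h2.le)]
  · rw [eq, eq, hA, norm_mul, Real.norm_of_nonneg h0]
  · rw [ep, eq]; simp
  · rw [ep]; simp

/-- a fixed point which stays Lyapunov stable after a dilation is a hyperbolic sink -/
theorem snk_of_scale {H : ℂ → ℂ} {c : ℂ} {L R : ℂ →L[ℝ] ℂ} (hL : HasStrictFDerivAt H L c)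
    (hc : H c = c) (hR : ∀ v, R (L v) = v) {σ : ℝ} (hσ : 1 < σ)
    (hs : Stab (fun z => c + σ • (H z - c)) c) : Nonempty (Snk H c) := by
  have σ0 : 0 < σ := by linarith
  have d1 : HasFDerivAt (fun z => c + σ • (H z - c)) (σ • L) c :=
    ((hL.hasFDerivAt.sub_const c).const_smul σ).const_add c
  have f1 : (fun z => c + σ • (H z - c)) c = c := by simp [hc]
  have d2 : HasFDerivAt (fun z => c + σ • (H z - c))^[2] ((σ • L) ^ 2) c := d1.iterate f1 2
  have f2 : (fun z => c + σ • (H z - c))^[2] c = c := iterate_fixed f1 2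
  have e2 : ∀ v, ((σ • L) ^ 2) v = (σ * σ) • L (L v) := fun v => by
    show σ • L (σ • L v) = _
    rw [map_smul, smul_smul]
  have s2 := hs.iter 2
  have σ2 : 1 < σ * σ := by nlinarith
  have e : (R : ℂ →ₗ[ℝ] ℂ) ∘ₗ (L : ℂ →ₗ[ℝ] ℂ) = LinearMap.id := LinearMap.ext hR
  have e3 := congrArg LinearMap.det e
  rw [LinearMap.det_comp, LinearMap.det_id] at e3
  have e4 : R.det * L.det = 1 := e3
  rcases lt_or_ge |L.det| 1 with hd | hd
  · rcases lin_dich L (right_ne_zero_of_mul_eq_one e4) hd with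
      ⟨N, θ, a, b, θ0, θ1, a0, hl, hu, hN⟩ | ⟨A, s, l, s1, l0, ls, hA⟩
    · have η0 := Real.sqrt_pos.2 θ0
      have η1 : Real.sqrt θ < 1 := by rwa [Real.sqrt_lt' one_pos, one_pow]
      have η2 := Real.mul_self_sqrt θ0.le
      have b0 : 0 ≤ b := by
        have := (hl 1).trans (hu 1)
        rw [norm_one] at this
        linarith
      obtain ⟨K, hK⟩ : ∃ K : Seminorm ℝ ℂ, ∀ v, K v = Real.sqrt θ * N v + N (L v) :=
        ⟨NNReal.mk _ η0.le • N + N.comp (L : ℂ →ₗ[ℝ] ℂ), fun v => rfl⟩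
      refine exists_snk hL hc K η0.le η1 (a := Real.sqrt θ * a) (b := Real.sqrt θ * b + b * ‖L‖)
        (mul_pos η0 a0) (fun v => ?_) (fun v => ?_) fun v => ?_
      · rw [hK, mul_assoc]
        linarith [mul_le_mul_of_nonneg_left (hl v) η0.le, apply_nonneg N (L v)]
      · rw [hK, add_mul, mul_assoc, mul_assoc]
        linarith [mul_le_mul_of_nonneg_left (hu v) η0.le, hu (L v),
          mul_le_mul_of_nonneg_left (L.le_opNorm v) b0]
      · rw [hK, hK, mul_add, ← mul_assoc, η2]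
        linarith [hN v]
    · refine (diag_not_stab d2 f2 A (μ := σ * σ * s) (ν := σ * σ * l) (by nlinarith)
        (by positivity) (mul_lt_mul_of_pos_left (by nlinarith) (by positivity))
        (fun v => ?_) s2).elim
      rw [e2, map_smul, hA]
      simp [mul_assoc]
  · have r0 : R.det ≠ 0 := left_ne_zero_of_mul_eq_one e4
    have r1 : |R.det| ≤ 1 := by
      have := congrArg abs e4
      rw [abs_mul, abs_one] at this
      nlinarith [abs_nonneg R.det]
    have r2 : (σ⁻¹ • R).det = σ⁻¹ ^ 2 * R.det := by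
      rw [ContinuousLinearMap.det, ContinuousLinearMap.toLinearMap_smul, LinearMap.det_smul,
        Complex.finrank_real_complex]
    have i0 : 0 < σ⁻¹ := inv_pos.2 σ0
    have i1 : σ⁻¹ < 1 := inv_lt_one_of_one_lt₀ hσ
    have inv : ∀ v, (σ⁻¹ • R) ((σ⁻¹ • R) (((σ • L) ^ 2) v)) = v := fun v => by
      rw [e2]
      simp only [smul_apply, map_smul, hR, smul_smul]
      rw [show σ * σ * σ⁻¹ * σ⁻¹ = 1 by field_simp, one_smul]
    rcases lin_dich (σ⁻¹ • R) (by rw [r2]; positivity) (by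
        rw [r2, abs_mul, abs_of_pos (by positivity : 0 < σ⁻¹ ^ 2)]
        nlinarith [abs_nonneg R.det]) with
      ⟨N, θ, a, b, θ0, θ1, a0, hl, hu, hN⟩ | ⟨A, s, l, s1, l0, ls, hA⟩
    · have b0 : 0 < b := by
        have := (hl 1).trans (hu 1)
        rw [norm_one] at this
        linarith
      refine (cone_not_stab d2 f2 N 0 a0 b0 (fun v _ => hl v) hu (fun v => by simp; positivity)
        (μ := θ⁻¹) (ν := 0) ((one_lt_inv₀ θ0).2 θ1) le_rfl (inv_pos.2 θ0) (fun v => ?_)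
        (fun v => by simp) (v := 1) (by simp) (by simpa using a0.trans_le (by simpa using hl 1))
        s2).elim
      have := hN (((σ • L) ^ 2) v)
      rw [inv] at this
      exact (inv_mul_le_iff₀ θ0).2 this
    · have l1 : l < 1 := by nlinarith
      have s0 : 0 < s := by linarith
      refine (diag_not_stab d2 f2 (A.trans (ContinuousLinearEquiv.prodComm ℝ ℝ ℝ)) (μ := l⁻¹)
        (ν := s⁻¹) ((one_lt_inv₀ l0).2 l1) (by positivity)
        ((inv_lt_inv₀ s0 l0).2 (by linarith)) (fun v => ?_) s2).elim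
      have h := hA (((σ • L) ^ 2) v)
      rw [inv] at h
      have h1 := congrArg Prod.fst h
      have h2 := congrArg Prod.snd h
      simp only at h1 h2
      refine Prod.ext ?_ ?_
      · show (A _).2 = l⁻¹ * (A v).2
        rw [h2, inv_mul_cancel_left₀ l0.ne']
      · show (A _).1 = s⁻¹ * (A v).1
        rw [h1, inv_mul_cancel_left₀ s0.ne']

end Pool.Agent.Lib.MP_6d0683_nr
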